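import Pool.Agent.Lib.MP_2ca583_ag.AMain

set_option autoImplicit false

open CategoryTheory AlgebraicGeometry Pool.Agent.Lib.MP_2ca583_ag

universe u

namespace Pool.Agent.Results.MP_2ca583_ag.AnyBranchPoints

/-- Let `k` be algebraically closed of characteristic `p > 2` and `g ≥ r p + (p + 3) / 2`. There is
a set `B` of `2 g + 2` points of the projective line such that for every set `B'` of `2 g + 2`
points obtained from `B` by moving at most `r` points, the hyperelliptic curve branched at `B'`
exists and has at most `p ^ (g - 1)` homomorphisms from `μ_p` to its Picard functor. -/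
theorem result (p : ℕ) (hp : p.Prime) (hp2 : 2 < p) (k : Type u) [Field k] [DecidableEq k]
    [IsAlgClosed k] [CharP k p] (r g : ℕ) (hg : r * p + (p + 3) / 2 ≤ g) :
    ∃ B : Set (OnePoint k), B.ncard = 2 * g + 2 ∧ ∀ B' : Set (OnePoint k),
      B'.ncard = 2 * g + 2 → (B' \ B).ncard ≤ r →
      (∃ (Y : Scheme.{u}) (s : Y ⟶ Spec (CommRingCat.of k)), Jac.IsModel B' s) ∧
      ∀ (Y : Scheme.{u}) (s : Y ⟶ Spec (CommRingCat.of k)), Jac.IsModel B' s →
        (Jac.homMu s p).encard ≤ (p : ℕ∞) ^ (g - 1) :=
  AnyPt.main p hp hp2 r g hg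

end Pool.Agent.Results.MP_2ca583_ag.AnyBranchPoints
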