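import Pool.Agent.Lib.MP_2ca583_ag.JM
import Pool.Agent.Lib.MP_2ca583_ag.JMod2

set_option autoImplicit false

open CategoryTheory AlgebraicGeometry Polynomial Pool.Agent.Lib.MP_2ca583_ag

universe u

namespace Pool.Agent.Results.MP_2ca583_ag.NeverOrdinary

/-- Let `k` be algebraically closed of characteristic `p > 2`, and let `g = p` or
`g ≥ p (p - 1) / 2 + 2`. There are `2 g` distinct elements `Λ` of `k` such that for every
`μ ∉ Λ`, for the affine curve `y ^ 2 = (x - μ) ∏ (x - l)`: its Picard group has at most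
`p ^ (g - 1)` elements killed by `p`; it has a smooth proper integral model; and for every such
model `Y` there are at most `p ^ (g - 1)` homomorphisms from `μ_p` to the Picard functor of `Y`. -/
theorem result (p : ℕ) (hp : p.Prime) (hp2 : 2 < p) (k : Type u) [Field k] [IsAlgClosed k]
    [CharP k p] (g : ℕ) (hg : g = p ∨ p * (p - 1) / 2 + 2 ≤ g) :
    ∃ Λ : Finset k, Λ.card = 2 * g ∧ ∀ μ : k, μ ∉ Λ →
      {c : CommRing.Pic
          (AdjoinRoot (X ^ 2 - C ((X - C μ) * ∏ l ∈ Λ, (X - C l)) : Polynomial (Polynomial k))) |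
        c ^ p = 1}.encard ≤ (p : ℕ∞) ^ (g - 1) ∧
      (∃ (Y : Scheme.{u}) (s : Y ⟶ Spec (CommRingCat.of k))
        (j : Spec (CommRingCat.of (AdjoinRoot
          (X ^ 2 - C ((X - C μ) * ∏ l ∈ Λ, (X - C l)) : Polynomial (Polynomial k)))) ⟶ Y),
        IsIntegral Y ∧ Smooth s ∧ IsProper s ∧ LocallyRingedSpace.IsOpenImmersion j.toLRSHom ∧
          j ≫ s = Jac.str k _) ∧
      ∀ (Y : Scheme.{u}) (s : Y ⟶ Spec (CommRingCat.of k)) [IsIntegral Y] [Smooth s] [IsProper s]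
        (j : Spec (CommRingCat.of (AdjoinRoot
          (X ^ 2 - C ((X - C μ) * ∏ l ∈ Λ, (X - C l)) : Polynomial (Polynomial k)))) ⟶ Y)
        [LocallyRingedSpace.IsOpenImmersion j.toLRSHom], j ≫ s = Jac.str k _ →
        (Jac.homMu s p).encard ≤ (p : ℕ∞) ^ (g - 1) := by
  have : Fact p.Prime := ⟨hp⟩
  obtain ⟨m, hm, Λ, hΛ, H⟩ := Jac.data (k := k) p hp2 g hg
  refine ⟨Λ, hΛ, fun μ hμ => ?_⟩
  obtain ⟨hf, hsq, u₀, G, hu₀, hdeg, hex, hG⟩ := H μ hμ
  refine ⟨card_pic hm hf hsq u₀ hu₀ ?_ hex,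
    Jac.exists_model ?_ hf (PerfectField.separable_iff_squarefree.2 hsq),
    fun Y s _ _ _ j _ hj => Jac.homMu_le s p hm hf j hj u₀ G hu₀ hdeg hG⟩
  · rw [degree_eq_natDegree hu₀]
    exact_mod_cast hdeg
  · intro h
    have h2 := (CharP.cast_eq_zero_iff k p 2).1 (by exact_mod_cast h)
    have := Nat.le_of_dvd two_pos h2
    omega

end Pool.Agent.Results.MP_2ca583_ag.NeverOrdinary
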