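import Pool.Agent.Lib.MP_2ca583_ag.SMain

set_option autoImplicit false

open CategoryTheory AlgebraicGeometry Pool.Agent.Lib.MP_2ca583_ag

universe u

namespace Pool.Agent.Results.MP_2ca583_ag.SublinearRank

/-- Let `k` be algebraically closed of characteristic `p > 2` and `g ≥ 1`. There is a set `B` of
`2 g + 2` points of the projective line, `∞` among them, such that for every set `B'` of `2 g + 2`
points the hyperelliptic curve branched at `B'` exists and, whenever `g ≤ n p ^ j`, has at most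
`p ^ N` homomorphisms from `μ_p` to its Picard functor, where
`N = ((p + 1) / 2) ^ j (r + n)` and `r` is the number of points of `B'` outside `B`. -/
theorem result (p : ℕ) (hp : p.Prime) (hp2 : 2 < p) (k : Type u) [Field k] [DecidableEq k]
    [IsAlgClosed k] [CharP k p] (g : ℕ) (hg : 1 ≤ g) :
    ∃ B : Set (OnePoint k), OnePoint.infty ∈ B ∧ B.ncard = 2 * g + 2 ∧
      ∀ B' : Set (OnePoint k), B'.ncard = 2 * g + 2 →
      (∃ (Y : Scheme.{u}) (s : Y ⟶ Spec (CommRingCat.of k)), Jac.IsModel B' s) ∧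
      ∀ (Y : Scheme.{u}) (s : Y ⟶ Spec (CommRingCat.of k)), Jac.IsModel B' s →
        ∀ j n : ℕ, g ≤ n * p ^ j →
          (Jac.homMu s p).encard ≤ (p : ℕ∞) ^ (((p + 1) / 2) ^ j * ((B' \ B).ncard + n)) :=
  AnyPt.main_sparse p hp hp2 g hg

/-- The rate: after moving at most `r` points, `1 ≤ r ≤ g`, the exponent is at most
`(p + 1) r (g / r) ^ β` with `β = log ((p + 1) / 2) / log p`. -/
theorem rate (p : ℕ) (hp : p.Prime) (hp2 : 2 < p) (k : Type u) [Field k] [DecidableEq k]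
    [IsAlgClosed k] [CharP k p] (g : ℕ) (hg : 1 ≤ g) :
    ∃ B : Set (OnePoint k), OnePoint.infty ∈ B ∧ B.ncard = 2 * g + 2 ∧
      ∀ (B' : Set (OnePoint k)) (r : ℕ), B'.ncard = 2 * g + 2 → (B' \ B).ncard ≤ r → 1 ≤ r →
      r ≤ g → ∀ (Y : Scheme.{u}) (s : Y ⟶ Spec (CommRingCat.of k)), Jac.IsModel B' s →
        ∃ N : ℕ, (Jac.homMu s p).encard ≤ (p : ℕ∞) ^ N ∧
          (N : ℝ) ≤ (p + 1) * r * ((g : ℝ) / r) ^ Real.logb p ((p + 1) / 2) := by
  obtain ⟨B, h0, hB, H⟩ := result p hp hp2 k g hg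
  refine ⟨B, h0, hB, fun B' r hB' hr hr1 hrg Y s hs => ?_⟩
  obtain ⟨j, hj, hN⟩ := AnyPt.rate_aux hp hp2 hr1 hrg
  refine ⟨_, (H B' hB').2 Y s hs j r hj, le_trans ?_ hN⟩
  exact_mod_cast Nat.mul_le_mul_left _ (Nat.add_le_add_right hr r)

end Pool.Agent.Results.MP_2ca583_ag.SublinearRank
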